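import Pool.Agent.Helper13.PS.St

/-!
# Project PS (MP_77ff3d_nt), module PA: simple properties of `P`
-/

set_option autoImplicit false

noncomputable section

namespace Pool.Agent.Helper84.PS

open Finset Pool.Agent.Helper76.ND Pool.Agent.Helper13.PS

theorem hPA (hNs : StNs) (hQs : StQs) : StPA := by
  have h1 : ∀ K n M, 0 ≤ P K n M := by
    intro K n M
    unfold P
    exact sum_nonneg (fun s _ => ns_nonneg _ _ _ _)
  have h2 : ∀ K n M, P K n (M + 3 ^ n) = P K n M := by
    intro K n M
    unfold P
    exact sum_congr rfl (fun s _ => hNs.1 n n s M)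
  have h3 : ∀ K n, ∑ M ∈ range (3 ^ n), P K n M ≤ 1 := by
    intro K n
    unfold P
    rw [sum_comm]
    rw [sum_congr rfl (fun s _ => hNs.2.2.2.1 n n s)]
    exact hQs.1 n K
  refine ⟨h1, h2, h3, ?_⟩
  intro K n M
  have h4 : P K n M = P K n (M % 3 ^ n) := by
    have h5 : ∀ q r : ℕ, P K n (r + q * 3 ^ n) = P K n r := by
      intro q
      induction q with
      | zero => intro r; simp
      | succ q ih =>
        intro r
        rw [Nat.add_mul, one_mul, ← add_assoc, h2, ih]
    have h6 := h5 (M / 3 ^ n) (M % 3 ^ n)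
    rw [← h6]
    congr 1
    rw [mul_comm]
    exact (Nat.mod_add_div M (3 ^ n)).symm
  rw [h4]
  have hlt : M % 3 ^ n < 3 ^ n := Nat.mod_lt _ (by positivity)
  exact (single_le_sum (f := fun M => P K n M) (fun i _ => h1 K n i) (mem_range.2 hlt)).trans
    (h3 K n)

end Pool.Agent.Helper84.PS
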