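import Pool.Agent.Helper13.PS.St2

/-!
# Project PS, part 2, module UF
-/

set_option autoImplicit false

namespace Pool.Agent.Helper84.PS

open Finset Pool.Agent.Helper76.ND Pool.Agent.Helper13.PS

private theorem clog_bd (j : ℕ) : 3 ^ j ≤ 2 ^ Nat.clog 2 (3 ^ j) ∧
    2 ^ Nat.clog 2 (3 ^ j) ≤ 2 * 3 ^ j := by
  refine ⟨Nat.le_pow_clog (by norm_num) _, ?_⟩
  rcases Nat.eq_zero_or_pos j with h | h
  · subst h; simp
  · have h1 : 1 < 3 ^ j := Nat.one_lt_pow (by omega) (by norm_num)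
    have h2 := Nat.pow_pred_clog_lt_self (b := 2) (by norm_num) h1
    have h3 : 0 < Nat.clog 2 (3 ^ j) := Nat.clog_pos (by norm_num) (by omega)
    obtain ⟨m, hm⟩ : ∃ m, Nat.clog 2 (3 ^ j) = m + 1 := ⟨_, (Nat.succ_pred_eq_of_pos h3).symm⟩
    rw [hm] at h2 ⊢
    simp only [Nat.pred_succ] at h2
    rw [pow_succ]
    omega

/-- the exponent at the next scale -/
private theorem exp_bd (H s t : ℝ) (hs : 1 ≤ s) (hst : s ≤ 7937 / 10000 * t) :
    Real.exp (-(H ^ 2 / s ^ 3)) ≤ Real.exp (-(H ^ 2 / t ^ 3)) ^ 2 := by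
  have ht : 0 < t := by linarith
  rw [← Real.exp_nat_mul]
  refine Real.exp_le_exp.2 ?_
  have h1 : s ^ 3 ≤ t ^ 3 / 2 := by
    have h2 : s ^ 3 ≤ (7937 / 10000 * t) ^ 3 := pow_le_pow_left₀ (by linarith) hst 3
    have h3 : 0 < t ^ 3 := by positivity
    have h4 : (7937 / 10000 * t) ^ 3 = (7937 / 10000) ^ 3 * t ^ 3 := by ring
    rw [h4] at h2
    norm_num at h2
    linarith
  have h5 : H ^ 2 / (t ^ 3 / 2) ≤ H ^ 2 / s ^ 3 :=
    div_le_div_of_nonneg_left (by positivity) (by positivity) h1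
  have h6 : H ^ 2 / (t ^ 3 / 2) = 2 * (H ^ 2 / t ^ 3) := by
    field_simp
  rw [h6] at h5
  push_cast
  linarith

theorem hUF (hPI : StPI) (hUC : StUC) (hUD : StUD) (hUE : StUE) : StUF := by
  classical
  intro H hH i
  induction i with
  | zero =>
    intro t
    have : (Icc 1 (2 ^ t)).filter (fun N => XU H 0 t N) = ∅ := by
      rw [filter_eq_empty_iff]
      intro N _ h
      exact h
    rw [this, card_empty]
    push_cast
    positivity
  | succ i ih =>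
    intro t
    by_cases hb : 2500 * H ≤ (t : ℝ) ^ 2
    swap
    · have : (Icc 1 (2 ^ t)).filter (fun N => XU H (i + 1) t N) = ∅ := by
        rw [filter_eq_empty_iff]
        intro N _ h
        exact hb h.1
      rw [this, card_empty]
      push_cast
      positivity
    have ht0 : (0 : ℝ) ≤ t := Nat.cast_nonneg t
    have ht : (2500 : ℝ) ≤ t := by
      by_contra hcon
      rw [not_le] at hcon
      nlinarith
    have ht1 : 1 ≤ t := by
      have : (1 : ℝ) ≤ t := by linarith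
      exact_mod_cast this
    have hHt : H ≤ (t : ℝ) ^ 2 := by linarith
    set e : ℝ := Real.exp (-(H ^ 2 / (t : ℝ) ^ 3)) with he
    have he0 : 0 < e := Real.exp_pos _
    let U : ℕ → Finset ℕ := fun j =>
      (Icc 1 (3 ^ j)).filter (fun M => XU H i (Nat.clog 2 (3 ^ j)) M)
    let J : Finset ℕ := (range (t + 1)).filter (fun j => 1 ≤ j ∧
      (Nat.clog 2 (3 ^ j) : ℝ) ≤ 7937 / 10000 * t ∧ 3 ^ j ≤ 2 ^ t)
    have hUsub : ∀ j, U j ⊆ Icc 1 (3 ^ j) := fun j => filter_subset _ _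
    have hUcard : ∀ j ∈ J, ((U j).card : ℝ) ≤ 1200 * (t : ℝ) ^ 4 * 3 ^ j * e ^ 2 := by
      intro j hj
      simp only [J, mem_filter, mem_range] at hj
      obtain ⟨_, hj1, hj2, _⟩ := hj
      have hc1 : 1 ≤ Nat.clog 2 (3 ^ j) := by
        refine Nat.clog_pos (by norm_num) ?_
        have : 3 ^ 1 ≤ 3 ^ j := Nat.pow_le_pow_right (by norm_num) hj1
        omega
      have hc1' : (1 : ℝ) ≤ (Nat.clog 2 (3 ^ j) : ℝ) := by exact_mod_cast hc1
      have h1 : (U j).card ≤ ((Icc 1 (2 ^ Nat.clog 2 (3 ^ j))).filter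
          (fun N => XU H i (Nat.clog 2 (3 ^ j)) N)).card := by
        refine card_le_card ?_
        intro M hM
        simp only [U, mem_filter, mem_Icc] at hM ⊢
        exact ⟨⟨hM.1.1, hM.1.2.trans (clog_bd j).1⟩, hM.2⟩
      have h2 := ih (Nat.clog 2 (3 ^ j))
      have h3 := exp_bd H (Nat.clog 2 (3 ^ j) : ℝ) t hc1' hj2
      rw [← he] at h3
      have h4 : ((2 : ℝ) ^ Nat.clog 2 (3 ^ j)) ≤ 2 * 3 ^ j := by exact_mod_cast (clog_bd j).2
      have h5 : (Nat.clog 2 (3 ^ j) : ℝ) ^ 4 ≤ (t : ℝ) ^ 4 :=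
        pow_le_pow_left₀ (by linarith) (by linarith) 4
      have h6 : (((U j).card : ℕ) : ℝ) ≤ 600 * (Nat.clog 2 (3 ^ j) : ℝ) ^ 4 *
          2 ^ Nat.clog 2 (3 ^ j) *
          Real.exp (-(H ^ 2 / (Nat.clog 2 (3 ^ j) : ℝ) ^ 3)) := by
        refine le_trans ?_ h2
        exact_mod_cast h1
      refine h6.trans ?_
      calc 600 * (Nat.clog 2 (3 ^ j) : ℝ) ^ 4 * 2 ^ Nat.clog 2 (3 ^ j) *
            Real.exp (-(H ^ 2 / (Nat.clog 2 (3 ^ j) : ℝ) ^ 3))
          ≤ 600 * (t : ℝ) ^ 4 * (2 * 3 ^ j) * e ^ 2 := by gcongr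
        _ = 1200 * (t : ℝ) ^ 4 * 3 ^ j * e ^ 2 := by ring
    have hsub : (Icc 1 (2 ^ t)).filter (fun N => XU H (i + 1) t N) ⊆
        (Icc 1 (2 ^ t)).filter (fun N => EU H t N) ∪ J.biUnion (fun j =>
          (Icc 1 (2 ^ t)).filter (fun N => hd (wd t N) = j ∧ S^[t] N ∈ U j)) := by
      intro N hN
      rw [mem_filter] at hN
      obtain ⟨hN0, _, hN3⟩ := hN
      have hN12 := mem_Icc.1 hN0
      rw [mem_union]
      by_cases hE : EU H t N
      · left
        rw [mem_filter]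
        exact ⟨hN0, hE⟩
      · right
        rcases hN3 with hN3 | hN3
        · exact absurd hN3 hE
        have h1 := hUE H t N hH hb hN12.1 hN12.2 hE
        have h5 : hd (wd t N) ≤ t := by
          have := hd_le (wd t N)
          rwa [wd_length] at this
        rw [mem_biUnion]
        refine ⟨hd (wd t N), ?_, ?_⟩
        · simp only [J]
          rw [mem_filter, mem_range]
          exact ⟨by omega, h1.1, h1.2.1, h1.2.2⟩
        · rw [mem_filter]
          refine ⟨hN0, rfl, ?_⟩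
          simp only [U]
          rw [mem_filter]
          exact ⟨hPI t N hN12.1 hN12.2, hN3⟩
    have hcard1 : (((Icc 1 (2 ^ t)).filter (fun N => XU H (i + 1) t N)).card : ℝ) ≤
        (((Icc 1 (2 ^ t)).filter (fun N => EU H t N)).card : ℝ) + ∑ j ∈ J,
          (((Icc 1 (2 ^ t)).filter (fun N => hd (wd t N) = j ∧ S^[t] N ∈ U j)).card : ℝ) := by
      have := (card_le_card hsub).trans ((card_union_le _ _).trans
        (Nat.add_le_add_left card_biUnion_le _))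
      exact_mod_cast this
    have hterm : ∀ j ∈ J,
        (((Icc 1 (2 ^ t)).filter (fun N => hd (wd t N) = j ∧ S^[t] N ∈ U j)).card : ℝ) ≤
        ((t : ℝ) + 2) * 2 ^ t * (35 * (t : ℝ) ^ 2 * e) := by
      intro j hj
      have hU1 := hUcard j hj
      have hj' := hj
      simp only [J, mem_filter, mem_range] at hj'
      refine (hUC t j (U j) (hUsub j) hj'.2.2.2).trans ?_
      refine mul_le_mul_of_nonneg_left ?_ (by positivity)
      refine Real.sqrt_le_iff.2 ⟨by positivity, ?_⟩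
      rw [div_le_iff₀ (by positivity)]
      refine hU1.trans ?_
      have h7 : 0 ≤ (t : ℝ) ^ 4 * 3 ^ j * e ^ 2 := by positivity
      calc 1200 * (t : ℝ) ^ 4 * 3 ^ j * e ^ 2 = 1200 * ((t : ℝ) ^ 4 * 3 ^ j * e ^ 2) := by ring
        _ ≤ 1225 * ((t : ℝ) ^ 4 * 3 ^ j * e ^ 2) :=
            mul_le_mul_of_nonneg_right (by norm_num) h7
        _ = (35 * (t : ℝ) ^ 2 * e) ^ 2 * 3 ^ j := by ring
    have hsum : ∑ j ∈ J,
          (((Icc 1 (2 ^ t)).filter (fun N => hd (wd t N) = j ∧ S^[t] N ∈ U j)).card : ℝ) ≤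
        ((t : ℝ) + 1) * (((t : ℝ) + 2) * 2 ^ t * (35 * (t : ℝ) ^ 2 * e)) := by
      refine (sum_le_sum hterm).trans ?_
      rw [sum_const, nsmul_eq_mul]
      refine mul_le_mul_of_nonneg_right ?_ (by positivity)
      have : J.card ≤ t + 1 := by
        refine (card_filter_le _ _).trans ?_
        rw [card_range]
      exact_mod_cast this
    have hD := hUD H t (by linarith) ht1 hHt
    rw [← he] at hD
    have hfin : ((t : ℝ) + 1) * (((t : ℝ) + 2) * 2 ^ t * (35 * (t : ℝ) ^ 2 * e)) ≤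
        210 * (t : ℝ) ^ 4 * 2 ^ t * e := by
      have h1 : (t : ℝ) + 1 ≤ 2 * t := by linarith
      have h2 : (t : ℝ) + 2 ≤ 3 * t := by linarith
      calc ((t : ℝ) + 1) * (((t : ℝ) + 2) * 2 ^ t * (35 * (t : ℝ) ^ 2 * e))
          ≤ (2 * t) * ((3 * t) * 2 ^ t * (35 * (t : ℝ) ^ 2 * e)) := by gcongr
        _ = 210 * (t : ℝ) ^ 4 * 2 ^ t * e := by ring
    have ht4 : (t : ℝ) ≤ (t : ℝ) ^ 4 := by
      have h1 : (1 : ℝ) ≤ t := by linarith
      calc (t : ℝ) = (t : ℝ) ^ 1 := (pow_one _).symm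
        _ ≤ (t : ℝ) ^ 4 := pow_le_pow_right₀ h1 (by norm_num)
    have hE2 : 5 * (t : ℝ) * 2 ^ t * e ≤ 5 * (t : ℝ) ^ 4 * 2 ^ t * e := by gcongr
    have hpos : 0 ≤ (t : ℝ) ^ 4 * 2 ^ t * e := by positivity
    calc (((Icc 1 (2 ^ t)).filter (fun N => XU H (i + 1) t N)).card : ℝ)
        ≤ 5 * (t : ℝ) * 2 ^ t * e +
          ((t : ℝ) + 1) * (((t : ℝ) + 2) * 2 ^ t * (35 * (t : ℝ) ^ 2 * e)) :=
          hcard1.trans (add_le_add hD hsum)
      _ ≤ 5 * (t : ℝ) ^ 4 * 2 ^ t * e + 210 * (t : ℝ) ^ 4 * 2 ^ t * e := add_le_add hE2 hfin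
      _ = 215 * ((t : ℝ) ^ 4 * 2 ^ t * e) := by ring
      _ ≤ 600 * ((t : ℝ) ^ 4 * 2 ^ t * e) := mul_le_mul_of_nonneg_right (by norm_num) hpos
      _ = 600 * (t : ℝ) ^ 4 * 2 ^ t * e := by ring

end Pool.Agent.Helper84.PS
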