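import Pool.Agent.Helper13.PS.St

/-!
# Project PS (MP_77ff3d_nt), module PL: finitely many stages
-/

set_option autoImplicit false

noncomputable section

namespace Pool.Agent.Helper84.PS

open Finset Pool.Agent.Helper76.ND Pool.Agent.Helper13.PS

private theorem mono_PL (c c' : ℝ) (h : c ≤ c') (t : ℕ) :
    (2 : ℝ) ^ ((1 - c') * (t : ℝ)) ≤ 2 ^ ((1 - c) * (t : ℝ)) := by
  apply Real.rpow_le_rpow_of_exponent_le (by norm_num)
  have : (0 : ℝ) ≤ (t : ℝ) := Nat.cast_nonneg t
  nlinarith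

theorem hPL (hPJ : StPJ) (hPK : StPK) : StPL := by
  classical
  intro σ h0 h1 i
  induction i with
  | zero =>
    refine ⟨1, 1 / 2, by norm_num, by norm_num, by norm_num, ?_⟩
    intro t
    have : (Icc 1 (2 ^ t)).filter (fun N => X σ 0 t N) = ∅ := by
      apply filter_eq_empty_iff.2
      intro N _ h
      exact h
    rw [this, card_empty, Nat.cast_zero]
    positivity
  | succ i ih =>
    obtain ⟨C1, c1, hC1, hc1, hc1', h1'⟩ := hPJ σ h0 (by linarith)
    obtain ⟨C2, c2, hC2, hc2, hc2', h2'⟩ := hPK σ (X σ i) h0 h1 ih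
    refine ⟨C1 + C2, min c1 c2, by linarith, lt_min hc1 hc2, (min_le_left _ _).trans_lt hc1', ?_⟩
    intro t
    have hsub : (Icc 1 (2 ^ t)).filter (fun N => X σ (i + 1) t N) ⊆
        (Icc 1 (2 ^ t)).filter (fun N => E σ t N) ∪
          (Icc 1 (2 ^ t)).filter (fun N => ¬ E σ t N ∧ X σ i (nx t N) (S^[t] N)) := by
      intro N hN
      rw [mem_filter] at hN
      rw [mem_union, mem_filter, mem_filter]
      by_cases hE : E σ t N
      · exact Or.inl ⟨hN.1, hE⟩
      · refine Or.inr ⟨hN.1, hE, ?_⟩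
        rcases hN.2 with h | h
        · exact absurd h hE
        · exact h
    have hcard : (((Icc 1 (2 ^ t)).filter (fun N => X σ (i + 1) t N)).card : ℝ) ≤
        (((Icc 1 (2 ^ t)).filter (fun N => E σ t N)).card : ℝ) +
        (((Icc 1 (2 ^ t)).filter (fun N => ¬ E σ t N ∧ X σ i (nx t N) (S^[t] N))).card : ℝ) := by
      exact_mod_cast (card_le_card hsub).trans (card_union_le _ _)
    calc (((Icc 1 (2 ^ t)).filter (fun N => X σ (i + 1) t N)).card : ℝ)
        ≤ C1 * 2 ^ ((1 - c1) * (t : ℝ)) + C2 * 2 ^ ((1 - c2) * (t : ℝ)) :=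
          hcard.trans (add_le_add (by convert h1' t) (by convert h2' t))
      _ ≤ C1 * 2 ^ ((1 - min c1 c2) * (t : ℝ)) + C2 * 2 ^ ((1 - min c1 c2) * (t : ℝ)) := by
          apply add_le_add
          · exact mul_le_mul_of_nonneg_left (mono_PL _ _ (min_le_left _ _) t) hC1.le
          · exact mul_le_mul_of_nonneg_left (mono_PL _ _ (min_le_right _ _) t) hC2.le
      _ = (C1 + C2) * 2 ^ ((1 - min c1 c2) * (t : ℝ)) := by ring

end Pool.Agent.Helper84.PS
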